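import Pool.Agent.Y294.TB2.Stm

/-!
Project TB2: ranks and normals at good points in all dimensions.
-/

set_option autoImplicit false

open Set
open scoped InnerProductSpace

namespace Pool.Agent.Y961.TB2

open Pool.Agent.H721R2.Quart Pool.Agent.H721R2.Ivrii
open Pool.Agent.TH746 Pool.Agent.TH746.AL MvPolynomial H450Al H450Sp
open Pool.Agent.Y294.TB Pool.Agent.Y294.TB2

section der

variable {Z₁ Z₂ F : Type*} [NormedAddCommGroup Z₁] [NormedSpace ℝ Z₁] [NormedAddCommGroup Z₂]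
  [NormedSpace ℝ Z₂] [NormedAddCommGroup F] [NormedSpace ℝ F]

theorem fderiv_fst_zero {f : Z₁ × Z₂ → F} {Y : Z₂ → F} (h : f = fun z => Y z.2) {z : Z₁ × Z₂}
    (hd : DifferentiableAt ℝ f z) (ζ : Z₁) : fderiv ℝ f z (ζ, 0) = 0 := by
  rw [← hd.lineDeriv_eq_fderiv]
  unfold lineDeriv
  have : (fun t : ℝ => f (z + t • (ζ, (0 : Z₂)))) = fun _ => f z := by
    funext t
    rw [h]
    simp
  rw [this]
  simp

theorem fderiv_snd_zero {f : Z₁ × Z₂ → F} {X : Z₁ → F} (h : f = fun z => X z.1) {z : Z₁ × Z₂}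
    (hd : DifferentiableAt ℝ f z) (ζ : Z₂) : fderiv ℝ f z (0, ζ) = 0 := by
  rw [← hd.lineDeriv_eq_fderiv]
  unfold lineDeriv
  have : (fun t : ℝ => f (z + t • ((0 : Z₁), ζ))) = fun _ => f z := by
    funext t
    rw [h]
    simp
  rw [this]
  simp

theorem fderiv_ofLp {m : ℕ} {Z : Type*} [NormedAddCommGroup Z] [NormedSpace ℝ Z] {f : Z → EE m}
    {z : Z} (hf : DifferentiableAt ℝ f z) (l : Fin (m + 2)) (ζ : Z) :
    fderiv ℝ (fun z => (f z).ofLp l) z ζ = (fderiv ℝ f z ζ).ofLp l := by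
  have h1 : HasFDerivAt (fun z => (f z).ofLp l)
      ((EuclideanSpace.proj l : EuclideanSpace ℝ (Fin (m + 2)) →L[ℝ] ℝ).comp (fderiv ℝ f z)) z :=
    (EuclideanSpace.proj l : EuclideanSpace ℝ (Fin (m + 2)) →L[ℝ] ℝ).hasFDerivAt.comp z
      hf.hasFDerivAt
  rw [h1.fderiv]
  rfl

end der

section vec

variable {m : ℕ}

theorem innerm (a b : EE m) : ⟪a, b⟫_ℝ = ∑ i : Fin (m + 2), b.ofLp i * a.ofLp i := rfl

/-- a nonzero vector orthogonal to `n` with at most `m` prescribed zeros -/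
theorem exists_vec (n : EE m) (J : Finset (Fin (m + 2))) (hJ : J.card ≤ m) :
    ∃ Y : EE m, Y ≠ 0 ∧ ⟪n, Y⟫_ℝ = 0 ∧ ∀ l ∈ J, Y.ofLp l = 0 := by
  by_contra hcon
  push Not at hcon
  obtain ⟨φ, hφ⟩ : ∃ φ : EE m →ₗ[ℝ] ℝ × (J → ℝ), ∀ Y, φ Y = (⟪n, Y⟫_ℝ, fun l : J => Y.ofLp l.1) :=
    ⟨{ toFun := fun Y => (⟪n, Y⟫_ℝ, fun l : J => Y.ofLp l.1)
       map_add' := fun Y Z => by
        refine Prod.ext (inner_add_right _ _ _) ?_
        funext l
        rfl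
       map_smul' := fun c Y => by
        refine Prod.ext (inner_smul_right _ _ _) ?_
        funext l
        rfl }, fun _ => rfl⟩
  have hinj : Function.Injective φ := by
    rw [← LinearMap.ker_eq_bot, LinearMap.ker_eq_bot']
    intro Y hY
    rw [hφ] at hY
    by_contra hY0
    obtain ⟨l, hl, hl'⟩ := hcon Y hY0 (congrArg Prod.fst hY)
    exact hl' (congrFun (congrArg Prod.snd hY) ⟨l, hl⟩)
  have h1 := LinearMap.finrank_le_finrank_of_injective hinj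
  rw [Module.finrank_prod, Module.finrank_self, Module.finrank_fintype_fun_eq_card,
    Fintype.card_coe] at h1
  have h2 : Module.finrank ℝ (EE m) = m + 2 := by
    exact finrank_euclideanSpace_fin
  omega

/-- a vector which is orthogonal to everything orthogonal to the unit vector `n` -/
theorem par_of {n g : EE m} (hn : ⟪n, n⟫_ℝ = 1) (h : ∀ Y, ⟪n, Y⟫_ℝ = 0 → ⟪g, Y⟫_ℝ = 0) :
    g = ⟪n, g⟫_ℝ • n := by
  have h1 : ⟪n, g - ⟪n, g⟫_ℝ • n⟫_ℝ = 0 := by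
    rw [inner_sub_right, inner_smul_right, hn]
    ring
  have h2 : ⟪g - ⟪n, g⟫_ℝ • n, g - ⟪n, g⟫_ℝ • n⟫_ℝ = 0 := by
    rw [inner_sub_left, inner_smul_left, h _ h1, h1]
    simp
  exact sub_eq_zero.1 (inner_self_eq_zero.1 h2)

end vec

section ind

variable {m : ℕ} {Z : Type} [NormedAddCommGroup Z] [NormedSpace ℝ Z] (C : Chn (EE m) Z)

theorem vv_x (i : Fin (C.N + 1)) (l : Fin (m + 2)) :
    vv2 C (0, i, l) = fun z => (C.x i z).ofLp l := by
  funext z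
  simp [vv2]

theorem vv_e (i : Fin (C.N + 1)) (l : Fin (m + 2)) :
    vv2 C (1, i, l) = fun z => (C.e i z).ofLp l := by
  funext z
  simp [vv2]

theorem vv_n (i : Fin (C.N + 1)) (l : Fin (m + 2)) :
    vv2 C (2, i, l) = fun z => (C.n i z).ofLp l := by
  funext z
  simp [vv2]

end ind

theorem basis {k : Type*} [Field k] [Algebra k ℝ] {m : ℕ} (x : Fin (m + 2) → ℝ)
    (h : ¬ ((m + 1 : ℕ) : ℕ∞) ≤ rk k (range x)) :
    ∃ J : Finset (Fin (m + 2)), J.card ≤ m ∧ ∀ i, x i ∈ cl k (x '' J) := by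
  classical
  obtain ⟨J, -, hJ, hr⟩ := exists_basis_index k x
  have hf : J.Finite := J.toFinite
  refine ⟨hf.toFinset, ?_, fun i => ?_⟩
  · by_contra hcon
    apply h
    rw [hr, hf.encard_eq_coe_toFinset_card]
    exact_mod_cast (not_le.1 hcon)
  · rw [hf.coe_toFinset]
    exact hJ i

theorem pt1 (h1 : S2_SURJ) (h2 : S_DEP) : S2_PT1 := by
  intro m Z _ _ C k _ _ z hz hg i hi
  by_contra hcon
  obtain ⟨J, hJ, hJc⟩ := basis _ hcon
  obtain ⟨Y, hY0, hnY, hYJ⟩ := exists_vec (C.n i z) J hJ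
  obtain ⟨ζ, hζ, -⟩ := h1 m Z C i hi z hz Y 0 hnY (inner_zero_right _)
  obtain ⟨i', hi'⟩ : ∃ i' : Fin (C.N + 1), (i' : ℕ) = i := ⟨⟨i, by omega⟩, rfl⟩
  have hfd : ∀ l, fderiv ℝ (vv2 C (0, i', l)) z ζ = Y.ofLp l := by
    intro l
    rw [vv_x, hi', fderiv_ofLp (C.dx i hi.le z hz), hζ]
  apply hY0
  ext l
  rw [← hfd l]
  refine h2 Z k _ (vv2 C) z hg {a | ∃ l ∈ J, a = (0, i', l)} (0, i', l) ζ ?_ ?_
  · rw [vv_x, hi']
    refine cl_mono k ?_ (hJc l)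
    rintro _ ⟨c, hc, rfl⟩
    refine ⟨(0, i', c), ⟨c, hc, rfl⟩, ?_⟩
    show vv2 C (0, i', c) z = _
    rw [vv_x, hi']
  · rintro _ ⟨c, hc, rfl⟩
    rw [hfd]
    exact hYJ c hc

theorem pt2 (h1 : S2_SURJ) (h2 : S_DEP) : S2_PT2 := by
  intro m Z _ _ C k _ _ z hz hg i hi hrk
  classical
  have hr1 := pt1 h1 h2 m Z C k z hz hg i hi
  obtain ⟨Φ, hΦ, j, hj⟩ := exists_rel (k := k) (m := m) (C.x i z).ofLp hr1 (by
    intro h
    have h3 := Nat.cast_le.1 (h.trans hrk)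
    omega)
  obtain ⟨i', hi'⟩ : ∃ i' : Fin (C.N + 1), (i' : ℕ) = i := ⟨⟨i, by omega⟩, rfl⟩
  obtain ⟨ix, hix⟩ : ∃ ix : Fin (m + 2) → Fin 3 × Fin (C.N + 1) × Fin (m + 2),
    ∀ l, ix l = (0, i', l) := ⟨fun l => (0, i', l), fun _ => rfl⟩
  have hinj : Function.Injective ix := by
    intro a b hab
    rw [hix, hix] at hab
    simpa using hab
  have hvv : ∀ l, vv2 C (ix l) = fun z => (C.x i z).ofLp l := by
    intro l
    rw [hix, vv_x, hi']
  have hev : ∀ R : MvPolynomial (Fin (m + 2)) k, aeval (fun l => vv2 C l z) (rename ix R) =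
      aeval (C.x i z).ofLp R := by
    intro R
    rw [aeval_rename]
    have h : ((fun l => vv2 C l z) ∘ ix) = (C.x i z).ofLp := by
      funext l
      show vv2 C (ix l) z = _
      rw [hvv]
    rw [h]
  have hrel : ∀ ζ, ∑ l : Fin (m + 2),
      grad Φ (C.x i z).ofLp l * (fderiv ℝ (C.x i) z ζ).ofLp l = 0 := by
    intro ζ
    have h3 := hg (rename ix Φ) (by rw [hev]; exact hΦ) ζ
    rw [← Finset.sum_subset (Finset.subset_univ (Finset.univ.image ix))] at h3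
    · rw [Finset.sum_image (fun a _ b _ hab => hinj hab)] at h3
      rw [← h3]
      refine Finset.sum_congr rfl fun l _ => ?_
      rw [hvv, fderiv_ofLp (C.dx i hi.le z hz), pderiv_rename hinj, hev]
      rfl
    · intro l _ hl
      have h4 : pderiv l (rename ix Φ) = 0 := by
        apply pderiv_eq_zero_of_notMem_vars
        intro hmem
        have h5 := vars_rename ix Φ hmem
        rw [Finset.mem_image] at h5
        obtain ⟨b, _, hb⟩ := h5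
        exact hl (Finset.mem_image.2 ⟨b, Finset.mem_univ _, hb⟩)
      rw [h4, map_zero, zero_mul]
  obtain ⟨g, hgd⟩ : ∃ g : EE m, g.ofLp = grad Φ (C.x i z).ofLp :=
    ⟨WithLp.toLp 2 (grad Φ (C.x i z).ofLp), rfl⟩
  have hpar := par_of (C.nn i hi z hz) (g := g) (by
    intro Y hY
    obtain ⟨ζ, hζ, -⟩ := h1 m Z C i hi z hz Y 0 hY (inner_zero_right _)
    have h5 := hrel ζ
    rw [hζ] at h5
    rw [innerm, hgd, ← h5]
    exact Finset.sum_congr rfl fun l _ => mul_comm _ _)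
  obtain ⟨c, hc⟩ : ∃ c : ℝ, c = ⟪C.n i z, g⟫_ℝ := ⟨_, rfl⟩
  rw [← hc] at hpar
  have hgr : grad Φ (C.x i z).ofLp = c • (C.n i z).ofLp := by
    rw [← hgd, hpar]
    rfl
  have hne : grad Φ (C.x i z).ofLp ≠ 0 := by
    intro h
    apply hj
    exact congrFun h j
  have hc0 : c ≠ 0 := by
    intro h
    apply hne
    rw [hgr, h, zero_smul]
  refine ⟨Φ, hΦ, hne, ?_, ?_⟩
  · intro v
    rw [hgr, refl_smul_normal _ _ _ hc0]
    funext l
    unfold rf H450Al.refl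
    have h8 : ∑ j, v.ofLp j * (C.n i z).ofLp j = ⟪C.n i z, v⟫_ℝ := rfl
    have h9 : ∑ j, (C.n i z).ofLp j ^ 2 = 1 := by
      rw [← C.nn i hi z hz, innerm]
      exact Finset.sum_congr rfl fun l _ => sq _
    rw [h8, h9, div_one]
    simp
  · intro v hv
    rw [hgr]
    have h8 : ∑ l : Fin (m + 2), v.ofLp l * (c • (C.n i z).ofLp) l = c * ⟪C.n i z, v⟫_ℝ := by
      rw [innerm, Finset.mul_sum]
      refine Finset.sum_congr rfl fun l _ => ?_
      simp only [Pi.smul_apply, smul_eq_mul]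
      ring
    rw [h8]
    exact mul_ne_zero hc0 hv

theorem pt3 (_ : S2_SURJ) (h2 : S_DEP) : S2_PT3 := by
  intro m Z₁ Z₂ _ _ _ _ C k _ _ z hz hs hg
  by_contra hcon
  obtain ⟨J, hJ, hJc⟩ := basis _ hcon
  obtain ⟨δ, hδ0, heδ, hδJ⟩ := exists_vec (C.e 0 z) J hJ
  obtain ⟨ζ, -, h4⟩ := C.surj z hz 0 δ (inner_zero_right _) heδ
  obtain ⟨X, hX⟩ := hs.x0
  obtain ⟨ν, hν⟩ := hs.n0
  obtain ⟨Y, hY⟩ := hs.e0
  have hx := fderiv_snd_zero hX (C.dx 0 (Nat.zero_le _) z hz) ζ.2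
  have hn := fderiv_snd_zero hν (C.dn 0 (Nat.zero_le _) z hz) ζ.2
  have he : fderiv ℝ (C.e 0) z (0, ζ.2) = δ := by
    have h5 : ζ = (ζ.1, 0) + (0, ζ.2) := by simp
    rw [h5, map_add, fderiv_fst_zero hY (C.de 0 (Nat.zero_le _) z hz), zero_add] at h4
    exact h4
  have hfe : ∀ l, fderiv ℝ (vv2 C (1, 0, l)) z (0, ζ.2) = δ.ofLp l := by
    intro l
    rw [vv_e]
    have h1 := fderiv_ofLp (C.de 0 (Nat.zero_le _) z hz) l ((0 : Z₁), ζ.2)
    rw [he] at h1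
    exact h1
  apply hδ0
  ext l
  rw [← hfe l]
  refine h2 _ k _ (vv2 C) z hg
    ({l | (l.1 = 0 ∨ l.1 = 2) ∧ l.2.1 = 0} ∪ {a | ∃ l ∈ J, a = (1, 0, l)}) (1, 0, l) (0, ζ.2) ?_ ?_
  · have h6 := hJc l
    rw [← cl_union] at h6
    rw [vv_e]
    refine cl_mono k ?_ h6
    rintro _ ((⟨c, rfl⟩ | ⟨c, rfl⟩) | ⟨c, hc, rfl⟩)
    · refine ⟨(0, 0, c), Or.inl ⟨Or.inl rfl, rfl⟩, ?_⟩
      show vv2 C (0, 0, c) z = _
      rw [vv_x]
      rfl
    · refine ⟨(2, 0, c), Or.inl ⟨Or.inr rfl, rfl⟩, ?_⟩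
      show vv2 C (2, 0, c) z = _
      rw [vv_n]
      rfl
    · refine ⟨(1, 0, c), Or.inr ⟨c, hc, rfl⟩, ?_⟩
      show vv2 C (1, 0, c) z = _
      rw [vv_e]
      rfl
  · rintro ⟨a, i, l⟩ (⟨ha, hi⟩ | ⟨c, hc, hac⟩)
    · simp only at ha hi
      subst hi
      rcases ha with rfl | rfl
      · rw [vv_x]
        have h1 := fderiv_ofLp (C.dx 0 (Nat.zero_le _) z hz) l ((0 : Z₁), ζ.2)
        rw [hx] at h1
        exact h1
      · rw [vv_n]
        have h1 := fderiv_ofLp (C.dn 0 (Nat.zero_le _) z hz) l ((0 : Z₁), ζ.2)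
        rw [hn] at h1
        exact h1
    · rw [hac, hfe]
      exact hδJ c hc

end Pool.Agent.Y961.TB2
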